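import Pool.Agent.Helper75.PY.Stmts

set_option autoImplicit false

universe u

namespace Pool.Agent.Helper75.PY

open Pool.Agent.Helper75.PX

theorem st_SH2 : ST_SH2.{u} := by
  intro K A _ _ _ i j a b x y h2 h
  have hi := h.hi
  have hj := h.hj
  have hji := h.hji
  rw [add_mul, one_mul] at hji
  rw [Algebra.algebraMap_eq_smul_one] at hi hj
  refine ⟨?_, h.hj, ?_, h.b0⟩
  · have e : (i + x • j + y • (1 : A)) * (i + x • j + y • (1 : A)) =
        i * i + x • (i * j) + y • i + (x • (j * i) + (x * x) • (j * j) + (x * y) • j) +
          (y • i + (y * x) • j + (y * y) • (1 : A)) := by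
      simp only [add_mul, mul_add, smul_mul_assoc, mul_smul_comm, one_mul, mul_one]
      module
    rw [e, hi, hj, hji, Algebra.algebraMap_eq_smul_one]
    linear_combination (norm := module) h2 • (x • (i * j) + y • i + (x * y) • j - y • (1 : A))
  · have e : j * (i + x • j + y • (1 : A)) = j * i + x • (j * j) + y • j := by
      simp only [mul_add, mul_smul_comm, mul_one]
    have e' : (i + x • j + y • (1 : A) + 1) * j = i * j + x • (j * j) + y • j + j := by
      simp only [add_mul, smul_mul_assoc, one_mul]
    rw [e, e', hji]
    module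

end Pool.Agent.Helper75.PY
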